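import Pool.Agent.RF66.Crit

/-!
The converse of the door of Route F: every structure of elementary type with `-1 = 1` and a nonzero
quaternion has a nonzero quaternion `c` with `GoodQ S c`. So the elementary type conjecture for
`-1 = 1` is equivalent to the existence of such a quaternion in every finite structure with
`-1 = 1` and a nonzero quaternion.
-/

set_option autoImplicit false
set_option linter.unusedSectionVars false

namespace Pool.Agent.GD98

open QS
open Pool.Agent.RF66 (GoodQ etc_of_good elem_of_decomp)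

/-- a nonzero quaternion with `GoodQ` -/
def HasGood (S : QStruct) : Prop := ∃ c, c ≠ S.zero ∧ GoodQ S c

/-- a nonzero quaternion -/
def NonDeg (S : QStruct) : Prop := ∃ a b : S.G, S.q a b ≠ S.zero

theorem one_q (S : QStruct) (a : S.G) : S.q 1 a = S.zero := by
  rw [S.qs2, S.q_one]

theorem self_q {S : QStruct} (h : S.neg = 1) (a : S.G) : S.q a a = S.zero := by
  have := S.qs1 a
  rwa [h, one_mul] at this

/-- two quaternions -/
theorem good_two {S : QStruct} (hS : NonDeg S) (h2 : Nat.card S.Q = 2) : HasGood S := by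
  obtain ⟨a0, b0, hc⟩ := hS
  refine ⟨S.q a0 b0, hc, ?_⟩
  have hall : ∀ β : S.Q, β = S.zero ∨ β = S.q a0 b0 := by
    obtain ⟨p, r, -, hpr⟩ := Nat.card_eq_two_iff.1 h2
    have hm : ∀ β : S.Q, β = p ∨ β = r := fun β => by
      have : β ∈ ({p, r} : Set S.Q) := by rw [hpr]; trivial
      simpa using this
    intro β
    rcases hm β with h | h <;> rcases hm S.zero with h' | h' <;>
      rcases hm (S.q a0 b0) with h'' | h'' <;> first
      | exact Or.inl (h.trans h'.symm)
      | exact Or.inr (h.trans h''.symm)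
      | exact absurd (h''.trans h'.symm) hc
  intro a d x u v h1 h2 h3
  by_contra hno
  push Not at hno
  obtain ⟨n1, n2, -⟩ := hno
  have e1 : S.q x u = S.zero := by rw [← h1]; exact (hall _).resolve_right (n1 u)
  have e2 : S.q x v = S.zero := by rw [← h2]; exact (hall _).resolve_right (n2 v)
  apply hc
  rw [← h3, S.q_zero_mul e1, e2]

/-- products, first factor -/
theorem good_prod_left {S T : QStruct} (h : HasGood S) : HasGood (prod S T) := by
  obtain ⟨c, hc, hg⟩ := h
  refine ⟨(c, T.zero), fun e => hc (congrArg Prod.fst e), ?_⟩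
  intro a d x u v h1 h2 h3
  have k1 : S.q a.1 u.1 = S.q x.1 u.1 := congrArg Prod.fst h1
  have k2 : S.q d.1 v.1 = S.q x.1 v.1 := congrArg Prod.fst h2
  have k3 : S.q x.1 (u.1 * v.1) = c := congrArg Prod.fst h3
  rcases hg _ _ _ _ _ k1 k2 k3 with ⟨z, hz⟩ | ⟨z, hz⟩ | ⟨z, hz⟩
  · exact Or.inl ⟨(z, 1), Prod.ext hz (T.q_one _)⟩
  · exact Or.inr (Or.inl ⟨(z, 1), Prod.ext hz (T.q_one _)⟩)
  · exact Or.inr (Or.inr ⟨(z, 1), Prod.ext hz (T.q_one _)⟩)

/-- products, second factor -/
theorem good_prod_right {S T : QStruct} (h : HasGood T) : HasGood (prod S T) := by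
  obtain ⟨c, hc, hg⟩ := h
  refine ⟨(S.zero, c), fun e => hc (congrArg Prod.snd e), ?_⟩
  intro a d x u v h1 h2 h3
  have k1 : T.q a.2 u.2 = T.q x.2 u.2 := congrArg Prod.snd h1
  have k2 : T.q d.2 v.2 = T.q x.2 v.2 := congrArg Prod.snd h2
  have k3 : T.q x.2 (u.2 * v.2) = c := congrArg Prod.snd h3
  rcases hg _ _ _ _ _ k1 k2 k3 with ⟨z, hz⟩ | ⟨z, hz⟩ | ⟨z, hz⟩
  · exact Or.inl ⟨(1, z), Prod.ext (S.q_one _) hz⟩
  · exact Or.inr (Or.inl ⟨(1, z), Prod.ext (S.q_one _) hz⟩)
  · exact Or.inr (Or.inr ⟨(1, z), Prod.ext (S.q_one _) hz⟩)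

/-- isomorphism -/
theorem good_iso {S T : QStruct} (h : Iso S T) (hg : HasGood S) : HasGood T := by
  obtain ⟨φ, -, hφ⟩ := h
  obtain ⟨c, hc, hg⟩ := hg
  obtain ⟨a0, b0, rfl⟩ := S.surj c
  have hz : ∀ a b, S.q a b = S.zero ↔ T.q (φ a) (φ b) = T.zero := fun a b => by
    have := hφ a b 1 1
    rwa [S.q_one, map_one, T.q_one] at this
  refine ⟨T.q (φ a0) (φ b0), fun e => hc ((hz _ _).2 e), ?_⟩
  intro a d x u v h1 h2 h3
  obtain ⟨a, rfl⟩ := φ.surjective a
  obtain ⟨d, rfl⟩ := φ.surjective d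
  obtain ⟨x, rfl⟩ := φ.surjective x
  obtain ⟨u, rfl⟩ := φ.surjective u
  obtain ⟨v, rfl⟩ := φ.surjective v
  rw [← hφ] at h1 h2
  rw [← map_mul, ← hφ] at h3
  rcases hg _ _ _ _ _ h1 h2 h3 with ⟨z, hz⟩ | ⟨z, hz⟩ | ⟨z, hz⟩
  · exact Or.inl ⟨φ z, (hφ _ _ _ _).1 hz⟩
  · exact Or.inr (Or.inl ⟨φ z, (hφ _ _ _ _).1 hz⟩)
  · exact Or.inr (Or.inr ⟨φ z, by rw [← map_mul]; exact (hφ _ _ _ _).1 hz⟩)

/-- the criterion on the level of `extMap` -/
theorem good_ext_of {S : QStruct} (e : S.Q × S.G) (p r : S.G × Multiplicative (ZMod 2))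
    (he : extMap S p r = e) (hne : e ≠ (S.zero, 1))
    (H : ∀ a d x u v : S.G × Multiplicative (ZMod 2), extMap S a u = extMap S x u →
      extMap S d v = extMap S x v → extMap S x (u * v) = e →
      (∃ z, extMap S a z = e) ∨ (∃ z, extMap S d z = e) ∨ (∃ z, extMap S (a * d) z = e)) :
    HasGood (ext S) := by
  subst he
  refine ⟨(ext S).q p r, fun h => hne (congrArg Subtype.val h), ?_⟩
  intro a d x u v h1 h2 h3
  have h1' : extMap S a u = extMap S x u := congrArg Subtype.val h1
  have h2' : extMap S d v = extMap S x v := congrArg Subtype.val h2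
  have h3' := congrArg Subtype.val h3
  rcases H a d x u v h1' h2' h3' with ⟨z, hz⟩ | ⟨z, hz⟩ | ⟨z, hz⟩
  · exact Or.inl ⟨z, Subtype.ext hz⟩
  · exact Or.inr (Or.inl ⟨z, Subtype.ext hz⟩)
  · exact Or.inr (Or.inr ⟨z, Subtype.ext hz⟩)

/-- the extension of a structure with a good quaternion -/
theorem good_ext {S : QStruct} (hn : S.neg = 1) (h : HasGood S) : HasGood (ext S) := by
  obtain ⟨c, hc, hg⟩ := h
  obtain ⟨p, r, hpr⟩ := S.surj c
  refine good_ext_of (c, 1) (p, 1) (r, 1) (by rw [extMap_one_one, hpr])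
    (fun e => hc (congrArg Prod.fst e)) ?_
  rintro ⟨a, α⟩ ⟨d, δ⟩ ⟨x, ξ⟩ ⟨u, υ⟩ ⟨v, ν⟩ h1' h2' h3'
  rw [Prod.mk_mul_mk] at h3' ⊢
  -- `x` and `uv` lie in `G`
  have hx : ξ = 1 ∧ υ * ν = 1 ∧ S.q x (u * v) = c := by
    rcases two_cases ξ with rfl | rfl <;> rcases two_cases (υ * ν) with h | h <;> rw [h] at h3'
    · rw [extMap_one_one] at h3'
      exact ⟨rfl, h, congrArg Prod.fst h3'⟩
    · rw [extMap_one_x, Prod.mk.injEq] at h3'
      exact absurd (by rw [← h3'.1, h3'.2, one_q]) hc
    · rw [extMap_x_one, Prod.mk.injEq] at h3'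
      exact absurd (by rw [← h3'.1, h3'.2, S.q_one]) hc
    · rw [extMap_x_x, Prod.mk.injEq, hn, one_mul, ← eq_iff_mul] at h3'
      exact absurd (by rw [← h3'.1, ← h3'.2, self_q hn]) hc
  obtain ⟨rfl, huv, hxuv⟩ := hx
  have hup : υ = ν := by
    rcases two_cases υ with rfl | rfl <;> rcases two_cases ν with rfl | rfl
    · rfl
    · rw [one_mul] at huv; exact huv.symm
    · rw [mul_one] at huv; exact huv
    · rfl
  subst hup
  clear h3' huv
  rcases two_cases υ with rfl | rfl
  · rcases two_cases α with rfl | rfl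
    · rcases two_cases δ with rfl | rfl
      · rw [extMap_one_one, extMap_one_one, Prod.mk.injEq] at h1' h2'
        rcases hg _ _ _ _ _ h1'.1 h2'.1 hxuv with ⟨z, hz⟩ | ⟨z, hz⟩ | ⟨z, hz⟩
        · exact Or.inl ⟨(z, 1), by rw [extMap_one_one, hz]⟩
        · exact Or.inr (Or.inl ⟨(z, 1), by rw [extMap_one_one, hz]⟩)
        · refine Or.inr (Or.inr ⟨(z, 1), ?_⟩)
          rw [one_mul, extMap_one_one, hz]
      · rw [extMap_x_one, extMap_one_one, Prod.mk.injEq] at h2'
        rw [extMap_one_one, extMap_one_one, Prod.mk.injEq] at h1'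
        refine Or.inl ⟨(u, 1), ?_⟩
        rw [extMap_one_one, h1'.1, ← hxuv, h2'.2, mul_one]
    · rw [extMap_x_one, extMap_one_one, Prod.mk.injEq] at h1'
      refine Or.inr (Or.inl ⟨(v, 1), ?_⟩)
      rw [h2', extMap_one_one, ← hxuv, h1'.2, one_mul]
  · rcases two_cases α with rfl | rfl
    · rw [extMap_one_x, extMap_one_x, Prod.mk.injEq] at h1'
      refine Or.inl ⟨(u * v, 1), ?_⟩
      rw [extMap_one_one, h1'.2, hxuv]
    · rcases two_cases δ with rfl | rfl
      · rw [extMap_one_x, extMap_one_x, Prod.mk.injEq] at h2'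
        refine Or.inr (Or.inl ⟨(u * v, 1), ?_⟩)
        rw [extMap_one_one, h2'.2, hxuv]
      · rw [extMap_x_x, extMap_one_x, Prod.mk.injEq, hn, one_mul] at h1' h2'
        refine Or.inr (Or.inr ⟨(x, 1), ?_⟩)
        rw [x_mul_x, extMap_one_one]
        have e : a * d = u * v := by
          have e1 : a = x * u := by rw [← h1'.2, mul_assoc, S.exp_two, mul_one]
          have e2 : d = x * v := by rw [← h2'.2, mul_assoc, S.exp_two, mul_one]
          rw [e1, e2, mul_mul_mul_comm, S.exp_two, one_mul]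
        rw [e, S.qs2, hxuv]

/-- the extension of a totally degenerate structure -/
theorem good_ext_deg {S : QStruct} (h0 : ∀ a b, S.q a b = S.zero)
    (h : NonDeg (ext S)) : HasGood (ext S) := by
  obtain ⟨p, r, hpr⟩ := h
  set g := (extMap S p r).2 with hgd
  have hg1 : g ≠ 1 := by
    intro e
    apply hpr
    apply Subtype.ext
    show extMap S p r = (S.zero, 1)
    refine Prod.ext ?_ e
    exact h0 _ _
  have hpe : (extMap S p r).2 = g := hgd.symm
  clear_value g
  have hv : ∀ u v : S.G × Multiplicative (ZMod 2), extMap S u v = (S.zero, g) ↔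
      (extMap S u v).2 = g := by
    intro u v
    constructor
    · intro e
      rw [e]
    · exact fun e => Prod.ext (h0 _ _) e
  refine good_ext_of (S.zero, g) p r ((hv _ _).2 hpe) (fun e => hg1 (congrArg Prod.snd e)) ?_
  rintro ⟨a, α⟩ ⟨d, δ⟩ x ⟨u, υ⟩ ⟨v, ν⟩ h1' h2' h3'
  rw [hv, extMap_snd_mul, ← h1', ← h2'] at h3'
  simp only [hv]
  clear h1' h2'
  rw [Prod.mk_mul_mk]
  rcases two_cases α with rfl | rfl
  · rcases two_cases δ with rfl | rfl
    · rcases two_cases υ with rfl | rfl <;> rcases two_cases ν with rfl | rfl <;>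
        simp only [extMap_one_one, extMap_one_x] at h3'
      · exact absurd (by rw [← h3', mul_one]) hg1
      · refine Or.inr (Or.inl ⟨(1, Multiplicative.ofAdd 1), ?_⟩)
        rw [extMap_one_x, ← h3', one_mul]
      · refine Or.inl ⟨(1, Multiplicative.ofAdd 1), ?_⟩
        rw [extMap_one_x, ← h3', mul_one]
      · refine Or.inr (Or.inr ⟨(1, Multiplicative.ofAdd 1), ?_⟩)
        rw [one_mul, extMap_one_x]
        exact h3'
    · exact Or.inr (Or.inl ⟨(g, 1), by rw [extMap_x_one]⟩)
  · exact Or.inl ⟨(g, 1), by rw [extMap_x_one]⟩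

/-- **the converse of the door of Route F** -/
theorem good_of_elem {S : QStruct} (h : ElemType S) : S.neg = 1 → NonDeg S → HasGood S := by
  induction h with
  | L0 S h =>
    rintro - ⟨a, b, hab⟩
    obtain ⟨hs, -⟩ := Nat.card_eq_one_iff_unique.1 h
    exact absurd (by rw [Subsingleton.elim b 1, S.q_one]) hab
  | L10 S h h1 h2 =>
    rintro - ⟨a, b, hab⟩
    exact absurd (h2 a b) hab
  | L11 S h h1 h2 => exact fun h3 => absurd h3 h1
  | L1 S h h1 h2 => exact fun h3 => absurd h3 h1
  | loc S hf h h1 h2 => exact fun _ hS => good_two hS h2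
  | prod S T h1 h2 ih1 ih2 =>
    intro hn hS
    have n1 : S.neg = 1 := congrArg Prod.fst hn
    have n2 : T.neg = 1 := congrArg Prod.snd hn
    by_cases hd : NonDeg S
    · exact good_prod_left (ih1 n1 hd)
    · by_cases hd' : NonDeg T
      · exact good_prod_right (ih2 n2 hd')
      · exfalso
        obtain ⟨a, b, hab⟩ := hS
        apply hab
        refine Prod.ext ?_ ?_
        · by_contra e
          exact hd ⟨_, _, e⟩
        · by_contra e
          exact hd' ⟨_, _, e⟩
  | ext S h ih =>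
    intro hn hS
    have n1 : S.neg = 1 := congrArg Prod.fst hn
    by_cases hd : NonDeg S
    · exact good_ext n1 (ih n1 hd)
    · refine good_ext_deg (fun a b => ?_) hS
      by_contra e
      exact hd ⟨_, _, e⟩
  | iso S T h1 h2 ih =>
    intro hn hS
    have hi := h1
    obtain ⟨φ, hφn, hφ⟩ := h1
    have n1 : S.neg = 1 := by
      apply φ.injective
      rw [hφn, hn, map_one]
    refine good_iso hi (ih n1 ?_)
    obtain ⟨a, b, hab⟩ := hS
    obtain ⟨a, rfl⟩ := φ.surjective a
    obtain ⟨b, rfl⟩ := φ.surjective b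
    refine ⟨a, b, fun e => hab ?_⟩
    have := hφ a b 1 1
    rw [S.q_one, map_one, T.q_one] at this
    exact this.1 e

/-- a totally degenerate structure whose smaller structures are elementary is elementary -/
theorem elem_of_deg {S : QStruct} [Finite S.G] (hneg : S.neg = 1)
    (hsm : ∀ T : QStruct, Finite T.G → T.neg = 1 → Nat.card T.G < Nat.card S.G → ElemType T)
    (h0 : ∀ a b, S.q a b = S.zero) : ElemType S := by
  by_cases hu : ∃ u : S.G, u ≠ 1
  · obtain ⟨u, hu⟩ := hu
    by_cases hg : ∃ g : S.G, g ≠ 1 ∧ g ≠ u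
    · obtain ⟨g, hg1, hg2⟩ := hg
      exact elem_of_decomp hneg hsm (Or.inr (Pool.Agent.ETCP.decomp_of_degenerate S hneg hu (h0 u) hg1 hg2))
    · push Not at hg
      refine ElemType.L10 S ?_ hneg h0
      rw [Nat.card_eq_two_iff]
      refine ⟨1, u, Ne.symm hu, ?_⟩
      ext g
      simp only [Set.mem_insert_iff, Set.mem_singleton_iff, Set.mem_univ, iff_true]
      by_cases h1 : g = 1
      · exact Or.inl h1
      · exact Or.inr (hg g h1)
  · push Not at hu
    refine ElemType.L0 S ?_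
    rw [Nat.card_eq_one_iff_unique]
    exact ⟨⟨fun a b => by rw [hu a, hu b]⟩, ⟨1⟩⟩

/-- **The elementary type conjecture for `-1 = 1` is equivalent to the existence of a good
quaternion in every finite structure with `-1 = 1` and a nonzero quaternion.** -/
theorem etc_iff_good :
    (∀ S : QStruct, Finite S.G → S.neg = 1 → ElemType S) ↔
      (∀ S : QStruct, Finite S.G → S.neg = 1 → NonDeg S → HasGood S) := by
  constructor
  · exact fun h S hf hn hS => good_of_elem (h S hf hn) hn hS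
  · intro h
    refine etc_of_good fun S hf hn hS hsm => ?_
    refine h S hf hn ?_
    by_contra hd
    apply hS
    refine elem_of_deg hn hsm fun a b => ?_
    by_contra e
    exact hd ⟨_, _, e⟩

end Pool.Agent.GD98
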