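import Pool.Agent.GD98.Conv

/-!
The converse of the door of Theorem Z+: every structure of elementary type with `-1 = 1` and a
nonzero quaternion has a nonzero quaternion `c` and a subgroup `H` such that `D_c` is not contained
in `H` and every element of `D_c` outside `H` is a slot of `c`. Here `D_c` is the set of all `v` with
`q (s, v) = 0` for some slot `s` of `c`.
-/

set_option autoImplicit false
set_option linter.unusedSectionVars false

namespace Pool.Agent.GD98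

open QS

/-- `c` is a value of `v` -/
def Slot (S : QStruct) (c : S.Q) (v : S.G) : Prop := ∃ b, S.q v b = c

/-- `v` is annihilated by a slot of `c` -/
def InDc (S : QStruct) (c : S.Q) (v : S.G) : Prop := ∃ s, Slot S c s ∧ S.q s v = S.zero

/-- a nonzero quaternion whose non-slots do not generate `D_c` -/
def HasW (S : QStruct) : Prop := ∃ c : S.Q, c ≠ S.zero ∧ ∃ H : Subgroup S.G,
  (∃ v, InDc S c v ∧ v ∉ H) ∧ ∀ v, InDc S c v → v ∉ H → Slot S c v

/-- two quaternions -/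
theorem w_two {S : QStruct} (hn : S.neg = 1) (hS : NonDeg S) (h2 : Nat.card S.Q = 2) :
    HasW S := by
  obtain ⟨a0, b0, hc⟩ := hS
  have hall : ∀ β : S.Q, β = S.zero ∨ β = S.q a0 b0 := by
    obtain ⟨p, r, -, hpr⟩ := Nat.card_eq_two_iff.1 h2
    have hm : ∀ β : S.Q, β = p ∨ β = r := fun β => by
      have : β ∈ ({p, r} : Set S.Q) := by rw [hpr]; trivial
      simpa using this
    intro β
    rcases hm β with h | h <;> rcases hm S.zero with h' | h' <;>
      rcases hm (S.q a0 b0) with h'' | h'' <;> first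
      | exact Or.inl (h.trans h'.symm)
      | exact Or.inr (h.trans h''.symm)
      | exact absurd (h''.trans h'.symm) hc
  let R : Subgroup S.G :=
    { carrier := {v | ∀ b, S.q b v = S.zero}
      one_mem' := fun b => S.q_one b
      mul_mem' := fun {x y} hx hy b => by rw [S.q_zero_mul (hx b)]; exact hy b
      inv_mem' := fun {x} hx b => by
        have : x⁻¹ = x := inv_eq_of_mul_eq_one_right (S.exp_two x)
        rw [this]; exact hx b }
  have hR : ∀ v, v ∈ R ↔ ∀ b, S.q b v = S.zero := fun v => Iff.rfl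
  refine ⟨S.q a0 b0, hc, R, ⟨a0, ⟨a0, ⟨b0, rfl⟩, self_q hn a0⟩, fun h => hc ?_⟩, ?_⟩
  · rw [S.qs2]
    exact (hR _).1 h b0
  · intro v _ hv
    rw [hR] at hv
    push Not at hv
    obtain ⟨b, hb⟩ := hv
    exact ⟨b, by rw [S.qs2]; exact (hall _).resolve_left hb⟩

/-- products, first factor -/
theorem w_prod_left {S T : QStruct} (h : HasW S) : HasW (prod S T) := by
  obtain ⟨c, hc, H, ⟨v0, ⟨s0, ⟨b0, h1⟩, h2⟩, h3⟩, hH⟩ := h
  refine ⟨(c, T.zero), fun e => hc (congrArg Prod.fst e),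
    H.comap (MonoidHom.fst S.G T.G), ⟨(v0, 1), ⟨(s0, 1), ⟨(b0, 1), ?_⟩, ?_⟩, ?_⟩, ?_⟩
  · exact Prod.ext h1 (T.q_one _)
  · exact Prod.ext h2 (T.q_one _)
  · exact fun e => h3 e
  · rintro v ⟨s, ⟨b, hb⟩, hs⟩ hv
    have k1 : S.q s.1 b.1 = c := congrArg Prod.fst hb
    have k2 : S.q s.1 v.1 = S.zero := congrArg Prod.fst hs
    obtain ⟨z, hz⟩ := hH v.1 ⟨s.1, ⟨b.1, k1⟩, k2⟩ (fun e => hv e)
    exact ⟨(z, 1), Prod.ext hz (T.q_one _)⟩

/-- products, second factor -/
theorem w_prod_right {S T : QStruct} (h : HasW T) : HasW (prod S T) := by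
  obtain ⟨c, hc, H, ⟨v0, ⟨s0, ⟨b0, h1⟩, h2⟩, h3⟩, hH⟩ := h
  refine ⟨(S.zero, c), fun e => hc (congrArg Prod.snd e),
    H.comap (MonoidHom.snd S.G T.G), ⟨(1, v0), ⟨(1, s0), ⟨(1, b0), ?_⟩, ?_⟩, ?_⟩, ?_⟩
  · exact Prod.ext (S.q_one _) h1
  · exact Prod.ext (S.q_one _) h2
  · exact fun e => h3 e
  · rintro v ⟨s, ⟨b, hb⟩, hs⟩ hv
    have k1 : T.q s.2 b.2 = c := congrArg Prod.snd hb
    have k2 : T.q s.2 v.2 = T.zero := congrArg Prod.snd hs
    obtain ⟨z, hz⟩ := hH v.2 ⟨s.2, ⟨b.2, k1⟩, k2⟩ (fun e => hv e)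
    exact ⟨(1, z), Prod.ext (S.q_one _) hz⟩

/-- isomorphism -/
theorem w_iso {S T : QStruct} (h : Iso S T) (hw : HasW S) : HasW T := by
  obtain ⟨φ, -, hφ⟩ := h
  obtain ⟨c, hc, H, ⟨v0, ⟨s0, ⟨b0, h1⟩, h2⟩, h3⟩, hH⟩ := hw
  have hz : ∀ a b, S.q a b = S.zero ↔ T.q (φ a) (φ b) = T.zero := fun a b => by
    have := hφ a b 1 1
    rwa [S.q_one, map_one, T.q_one] at this
  subst h1
  refine ⟨T.q (φ s0) (φ b0), fun e => hc ((hz _ _).2 e), H.comap φ.symm.toMonoidHom,
    ⟨φ v0, ⟨φ s0, ⟨φ b0, rfl⟩, (hz _ _).1 h2⟩, fun e => h3 ?_⟩, ?_⟩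
  · have e' : φ.symm (φ v0) ∈ H := e
    rwa [φ.symm_apply_apply] at e'
  · rintro v ⟨s, ⟨b, hb⟩, hs⟩ hv
    obtain ⟨v, rfl⟩ := φ.surjective v
    obtain ⟨s, rfl⟩ := φ.surjective s
    obtain ⟨b, rfl⟩ := φ.surjective b
    obtain ⟨z, hz'⟩ := hH v ⟨s, ⟨b, (hφ _ _ _ _).2 hb⟩, (hz _ _).2 hs⟩ (fun e => hv (by
      show φ.symm (φ v) ∈ H
      rwa [φ.symm_apply_apply]))
    exact ⟨φ z, (hφ _ _ _ _).1 hz'⟩

/-- the criterion on the level of `extMap` -/
theorem w_ext_of {S : QStruct} (e : S.Q × S.G) (H : Subgroup (S.G × Multiplicative (ZMod 2)))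
    (v0 s0 b0 : S.G × Multiplicative (ZMod 2)) (h1 : extMap S s0 b0 = e)
    (h2 : extMap S s0 v0 = (S.zero, 1)) (h3 : v0 ∉ H) (hne : e ≠ (S.zero, 1))
    (hH : ∀ v s b : S.G × Multiplicative (ZMod 2), extMap S s b = e →
      extMap S s v = (S.zero, 1) → v ∉ H → ∃ z, extMap S v z = e) :
    HasW (ext S) := by
  subst h1
  refine ⟨(ext S).q s0 b0, fun h => hne (congrArg Subtype.val h), H,
    ⟨v0, ⟨s0, ⟨b0, rfl⟩, Subtype.ext h2⟩, h3⟩, ?_⟩
  rintro v ⟨s, ⟨b, hb⟩, hs⟩ hv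
  obtain ⟨z, hz⟩ := hH v s b (congrArg Subtype.val hb) (congrArg Subtype.val hs) hv
  exact ⟨z, Subtype.ext hz⟩

/-- the extension of a structure with such a quaternion -/
theorem w_ext {S : QStruct} (hn : S.neg = 1) (h : HasW S) : HasW (ext S) := by
  obtain ⟨c, hc, H, ⟨v0, ⟨s0, ⟨b0, h1⟩, h2⟩, h3⟩, hH⟩ := h
  refine w_ext_of (c, 1) (H.comap (MonoidHom.fst S.G (Multiplicative (ZMod 2)))) (v0, 1) (s0, 1)
    (b0, 1) (by rw [extMap_one_one, h1]) (by rw [extMap_one_one, h2]) (fun e => h3 e)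
    (fun e => hc (congrArg Prod.fst e)) ?_
  rintro ⟨v, ν⟩ ⟨s, σ⟩ ⟨b, β⟩ hb hs hv
  have hx : σ = 1 ∧ S.q s b = c := by
    rcases two_cases σ with rfl | rfl <;> rcases two_cases β with rfl | rfl
    · rw [extMap_one_one] at hb
      exact ⟨rfl, congrArg Prod.fst hb⟩
    · rw [extMap_one_x, Prod.mk.injEq] at hb
      exact absurd (by rw [← hb.1, hb.2, one_q]) hc
    · rw [extMap_x_one, Prod.mk.injEq] at hb
      exact absurd (by rw [← hb.1, hb.2, S.q_one]) hc
    · rw [extMap_x_x, Prod.mk.injEq, hn, one_mul, ← eq_iff_mul] at hb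
      exact absurd (by rw [← hb.1, ← hb.2, self_q hn]) hc
  obtain ⟨rfl, hsb⟩ := hx
  rcases two_cases ν with rfl | rfl
  · rw [extMap_one_one, Prod.mk.injEq] at hs
    obtain ⟨z, hz⟩ := hH v ⟨s, ⟨b, hsb⟩, hs.1⟩ (fun e => hv e)
    exact ⟨(z, 1), by rw [extMap_one_one, hz]⟩
  · rw [extMap_one_x, Prod.mk.injEq] at hs
    exact absurd (by rw [← hsb, hs.2, one_q]) hc

/-- the extension of a totally degenerate structure -/
theorem w_ext_deg {S : QStruct} (hn : S.neg = 1) (h0 : ∀ a b, S.q a b = S.zero)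
    (h : NonDeg (ext S)) : HasW (ext S) := by
  obtain ⟨p, r, hpr⟩ := h
  set g := (extMap S p r).2 with hgd
  have hg1 : g ≠ 1 := by
    intro e
    apply hpr
    apply Subtype.ext
    show extMap S p r = (S.zero, 1)
    refine Prod.ext ?_ e
    exact h0 _ _
  clear_value g
  refine w_ext_of (S.zero, g) (MonoidHom.ker (MonoidHom.snd S.G (Multiplicative (ZMod 2))))
    (1, Multiplicative.ofAdd 1) (1, Multiplicative.ofAdd 1) (g, 1)
    (by rw [extMap_x_one, h0]) (by rw [extMap_x_x, h0, hn, one_mul, one_mul]) ?_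
    (fun e => hg1 (congrArg Prod.snd e)) ?_
  · intro e
    have e' : (Multiplicative.ofAdd (1 : ZMod 2)) = 1 := e
    exact absurd e' (by decide)
  · rintro ⟨v, ν⟩ s b - - hv
    rcases two_cases ν with rfl | rfl
    · exact absurd (show (v, (1 : Multiplicative (ZMod 2))).2 = 1 from rfl) hv
    · exact ⟨(g, 1), by rw [extMap_x_one, h0]⟩

/-- **the converse of the door of Theorem Z+** -/
theorem w_of_elem {S : QStruct} (h : ElemType S) : S.neg = 1 → NonDeg S → HasW S := by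
  induction h with
  | L0 S h =>
    rintro - ⟨a, b, hab⟩
    obtain ⟨hs, -⟩ := Nat.card_eq_one_iff_unique.1 h
    exact absurd (by rw [Subsingleton.elim b 1, S.q_one]) hab
  | L10 S h h1 h2 =>
    rintro - ⟨a, b, hab⟩
    exact absurd (h2 a b) hab
  | L11 S h h1 h2 => exact fun h3 => absurd h3 h1
  | L1 S h h1 h2 => exact fun h3 => absurd h3 h1
  | loc S hf h h1 h2 => exact fun hn hS => w_two hn hS h2
  | prod S T h1 h2 ih1 ih2 =>
    intro hn hS
    have n1 : S.neg = 1 := congrArg Prod.fst hn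
    have n2 : T.neg = 1 := congrArg Prod.snd hn
    by_cases hd : NonDeg S
    · exact w_prod_left (ih1 n1 hd)
    · by_cases hd' : NonDeg T
      · exact w_prod_right (ih2 n2 hd')
      · exfalso
        obtain ⟨a, b, hab⟩ := hS
        apply hab
        refine Prod.ext ?_ ?_
        · by_contra e
          exact hd ⟨_, _, e⟩
        · by_contra e
          exact hd' ⟨_, _, e⟩
  | ext S h ih =>
    intro hn hS
    have n1 : S.neg = 1 := congrArg Prod.fst hn
    by_cases hd : NonDeg S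
    · exact w_ext n1 (ih n1 hd)
    · refine w_ext_deg n1 (fun a b => ?_) hS
      by_contra e
      exact hd ⟨_, _, e⟩
  | iso S T h1 h2 ih =>
    intro hn hS
    have hi := h1
    obtain ⟨φ, hφn, hφ⟩ := h1
    have n1 : S.neg = 1 := by
      apply φ.injective
      rw [hφn, hn, map_one]
    refine w_iso hi (ih n1 ?_)
    obtain ⟨a, b, hab⟩ := hS
    obtain ⟨a, rfl⟩ := φ.surjective a
    obtain ⟨b, rfl⟩ := φ.surjective b
    refine ⟨a, b, fun e => hab ?_⟩
    have := hφ a b 1 1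
    rw [S.q_one, map_one, T.q_one] at this
    exact this.1 e

/-- the equivalence, given the door -/
theorem etc_iff_w_of
    (door : (∀ S : QStruct, Finite S.G → S.neg = 1 → ¬ ElemType S →
      (∀ T : QStruct, Finite T.G → T.neg = 1 → Nat.card T.G < Nat.card S.G → ElemType T) →
      HasW S) → ∀ S : QStruct, Finite S.G → S.neg = 1 → ElemType S) :
    (∀ S : QStruct, Finite S.G → S.neg = 1 → ElemType S) ↔
      (∀ S : QStruct, Finite S.G → S.neg = 1 → NonDeg S → HasW S) := by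
  constructor
  · exact fun h S hf hn hS => w_of_elem (h S hf hn) hn hS
  · intro h
    refine door fun S hf hn hS hsm => ?_
    refine h S hf hn ?_
    by_contra hd
    apply hS
    refine elem_of_deg hn hsm fun a b => ?_
    by_contra e
    exact hd ⟨_, _, e⟩

end Pool.Agent.GD98
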