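import Pool.Agent.GD98.ConvW
import Pool.Agent.ZPL53.Door

/-!
The elementary type conjecture for `-1 = 1` is equivalent to: every finite structure with `-1 = 1`
and a nonzero quaternion has a nonzero quaternion `c` such that `D_c` is not generated by its
elements which are no slots of `c`.
-/

set_option autoImplicit false
set_option linter.unusedSectionVars false

namespace Pool.Agent.GD98

open QS

theorem hasW_iff (S : QStruct) : HasW S ↔ ∃ c : S.Q, c ≠ S.zero ∧
    ∃ v, InDc S c v ∧ v ∉ Subgroup.closure {w | InDc S c w ∧ ¬ Slot S c w} := by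
  constructor
  · rintro ⟨c, hc, H, ⟨v, hv, hvH⟩, hH⟩
    refine ⟨c, hc, v, hv, fun h => hvH ?_⟩
    refine (Subgroup.closure_le H).2 ?_ h
    rintro w ⟨h1, h2⟩
    by_contra h3
    exact h2 (hH w h1 h3)
  · rintro ⟨c, hc, v, hv, hvH⟩
    refine ⟨c, hc, _, ⟨v, hv, hvH⟩, fun w h1 h2 => ?_⟩
    by_contra h3
    exact h2 (Subgroup.subset_closure ⟨h1, h3⟩)

theorem lawW_of_hasW {S : QStruct} (h : HasW S) : ZPL53.LawW S := by
  obtain ⟨c, hc, H, ⟨v, ⟨s, ⟨b, h1⟩, h2⟩, h3⟩, hH⟩ := h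
  exact ⟨c, hc, H, ⟨s, b, v, h1, h2, h3⟩, fun s t v e1 e2 e3 => hH v ⟨s, ⟨t, e1⟩, e2⟩ e3⟩

theorem etc_iff_w :
    (∀ S : QStruct, Finite S.G → S.neg = 1 → ElemType S) ↔
      (∀ S : QStruct, Finite S.G → S.neg = 1 → NonDeg S → HasW S) :=
  etc_iff_w_of fun h => ZPL53.etc_of_W fun S hf hn hS hsm => lawW_of_hasW (h S hf hn hS hsm)

/-- **The elementary type conjecture for `-1 = 1` in terms of the slots of one quaternion** -/
theorem etc_iff_slots :
    (∀ S : QStruct, Finite S.G → S.neg = 1 → ElemType S) ↔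
      ∀ S : QStruct, Finite S.G → S.neg = 1 → (∃ a b : S.G, S.q a b ≠ S.zero) →
        ∃ c : S.Q, c ≠ S.zero ∧ ∃ v, InDc S c v ∧
          v ∉ Subgroup.closure {w | InDc S c w ∧ ¬ Slot S c w} :=
  etc_iff_w.trans (forall_congr' fun S => forall_congr' fun _ => forall_congr' fun _ =>
    forall_congr' fun _ => hasW_iff S)

end Pool.Agent.GD98
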